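import Pool.Agent.Lib.MP_32c80e_al.Core

/-!
# The inclusion of the group of one bi-infinite path into the group of two is elementary for AE-formulas

`Raag pathZ` is the right-angled Artin group of the bi-infinite path, `Raag pathZ2` the one of two disjoint bi-infinite
paths, `inc1` the inclusion of the first copy, `Lg` the first-order language of groups.
-/

set_option autoImplicit false

namespace Pool.Agent.Results.MP_32c80e_al.AETheory

open FirstOrder Pool.Agent.Lib.MP_32c80e_al

theorem result (m p q : ℕ) (φ : Lg.Formula ((Fin m ⊕ Fin p) ⊕ Fin q)) (hφ : Language.BoundedFormula.IsQF φ)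
    (z : Fin m → Raag pathZ) :
    ((φ.iExs (Fin q)).iAlls (Fin p)).Realize z ↔ ((φ.iExs (Fin q)).iAlls (Fin p)).Realize (inc1 ∘ z) := by
  rw [Language.Formula.realize_iAlls, Language.Formula.realize_iAlls]
  simp only [Language.Formula.realize_iExs]
  exact core (abs_qf hφ) z

end Pool.Agent.Results.MP_32c80e_al.AETheory
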