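import Pool.Agent.Lib.MP_32c80e_al.Surj

/-!
# Sentences with quantifier-free conditions on two blocks and positive conditions of any complexity

`Raag pathZ` is the right-angled Artin group of the bi-infinite path, `Raag pathZ2` the one of two disjoint bi-infinite
paths, `Lg` the first-order language of groups, `IsPos` the positive formulas.
-/

set_option autoImplicit false

namespace Pool.Agent.Results.MP_32c80e_al.PositivePart

open FirstOrder Pool.Agent.Lib.MP_32c80e_al

theorem result (m p K : ℕ) (θ P : Fin K → Lg.Formula (Fin m ⊕ Fin p))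
    (hθ : ∀ k, Language.BoundedFormula.IsQF (θ k)) (hP : ∀ k, IsPos (P k)) :
    (∃ z : Fin m → Raag pathZ, ∀ x : Fin p → Raag pathZ, ∃ k,
      (θ k).Realize (Sum.elim z x) ∧ (P k).Realize (Sum.elim z x)) ↔
    ∃ z : Fin m → Raag pathZ2, ∀ x : Fin p → Raag pathZ2, ∃ k,
      (θ k).Realize (Sum.elim z x) ∧ (P k).Realize (Sum.elim z x) := by
  constructor
  · rintro ⟨z, hz⟩
    exact ⟨inc1 ∘ z, sigma_up θ P hθ hP z hz⟩
  · rintro ⟨z, hz⟩
    obtain ⟨N, hN⟩ := sigma_down θ P hθ hP z
    exact ⟨fold N ∘ z, hN hz⟩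

end Pool.Agent.Results.MP_32c80e_al.PositivePart
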